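import Pool.Agent.Lib.MP_e80b9c_lc.Final

/-!
# Baumgartner's axiom implies that the real line is not covered by `ℵ₁` meager sets

`BA_κ(ℝ)` implies `cov(M) ≠ κ` for every cardinal `κ`; in particular `BA` implies `cov(M) > ℵ₁`.
-/

set_option autoImplicit false

namespace Pool.Agent.Results.MP_e80b9c_lc.BaumgartnerCategory

open Pool.Agent.Lib.MP_e80b9c_lc
open Cardinal

theorem result :
    (∀ κ : Cardinal.{0}, BA κ ℝ → covM ≠ κ) ∧ (BA ℵ₁ ℝ → ℵ₁ < covM) := by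
  have h1 : ∀ κ : Cardinal.{0}, BA κ ℝ → covM ≠ κ := by
    rintro κ hκ rfl
    exact not_BA_covM hκ
  refine ⟨h1, fun h => ?_⟩
  refine lt_of_le_of_ne ?_ (h1 ℵ₁ h).symm
  rw [← Cardinal.succ_aleph0]
  exact Order.succ_le_of_lt aleph0_lt_covM

end Pool.Agent.Results.MP_e80b9c_lc.BaumgartnerCategory
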